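import Pool.Agent.W770.KP.Stm

/-! KP-CP (for project KP of helper770). -/

set_option autoImplicit false

open scoped Classical

namespace Pool.Agent.W675.KP

open Pool.Agent.W770.KP MvPolynomial

theorem tdeg_aeval {F : Type} [Field F] {n k : ℕ} (f : Fin n → MvPolynomial (Fin k) F)
    (hf : ∀ i, (f i).totalDegree ≤ 1) (R : MvPolynomial (Fin n) F) (E : ℕ) (hR : R.totalDegree ≤ E) :
    (aeval f R).totalDegree ≤ E := by
  rw [aeval_def, eval₂_eq']
  apply totalDegree_finsetSum_le
  intro d hd
  refine le_trans (totalDegree_mul _ _) ?_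
  have h1 : (algebraMap F (MvPolynomial (Fin k) F) (coeff d R)).totalDegree = 0 := totalDegree_C _
  rw [h1, zero_add]
  refine le_trans (totalDegree_finsetProd _ _) ?_
  have h2 : ∀ i : Fin n, (f i ^ d i).totalDegree ≤ d i := by
    intro i
    refine le_trans (totalDegree_pow _ _) ?_
    calc d i * (f i).totalDegree ≤ d i * 1 := Nat.mul_le_mul_left _ (hf i)
      _ = d i := mul_one _
  refine le_trans (Finset.sum_le_sum (fun i _ => h2 i)) ?_
  have h3 := le_totalDegree hd
  rw [Finsupp.sum_fintype _ _ (fun _ => rfl)] at h3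
  exact le_trans h3 hR

/-- the substitution -/
noncomputable def sb {F : Type} [Field F] {n k : ℕ} (a : Fin n → F) (B : Fin k → Fin n → F) :
    MvPolynomial (Fin n) F →ₐ[F] MvPolynomial (Fin k) F :=
  aeval (fun i => C (a i) + ∑ j, C (B j i) * X j)

theorem sb_tdeg {F : Type} [Field F] {n k : ℕ} (a : Fin n → F) (B : Fin k → Fin n → F)
    (R : MvPolynomial (Fin n) F) (E : ℕ) (hR : R.totalDegree ≤ E) : (sb a B R).totalDegree ≤ E := by
  unfold sb
  apply tdeg_aeval _ _ _ _ hR
  intro i
  refine le_trans (totalDegree_add _ _) (max_le ?_ ?_)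
  · rw [totalDegree_C]; exact Nat.zero_le _
  · apply totalDegree_finsetSum_le
    intro j _
    refine le_trans (totalDegree_mul _ _) ?_
    rw [totalDegree_C, totalDegree_X]

theorem sb_eval {F : Type} [Field F] {n k : ℕ} (a : Fin n → F) (B : Fin k → Fin n → F)
    (R : MvPolynomial (Fin n) F) (w : Fin k → F) :
    eval w (sb a B R) = eval (fun i => a i + ∑ j, B j i * w j) R := by
  unfold sb
  have h1 : (eval w) ((aeval (fun i => C (a i) + ∑ j, C (B j i) * X j)) R) =
      (((aeval w : MvPolynomial (Fin k) F →ₐ[F] F).comp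
        (aeval (fun i => C (a i) + ∑ j, C (B j i) * X j))) R) := by
    rw [AlgHom.comp_apply]
    simp [aeval_eq_eval]
  have h2 : (aeval w : MvPolynomial (Fin k) F →ₐ[F] F).comp
        (aeval (fun i => C (a i) + ∑ j, C (B j i) * X j)) =
      (aeval (fun i => a i + ∑ j, B j i * w j) : MvPolynomial (Fin n) F →ₐ[F] F) := by
    apply MvPolynomial.algHom_ext
    intro i
    simp [AlgHom.comp_apply, map_add, map_sum, map_mul]
  rw [h1, h2]
  simp [aeval_eq_eval]

theorem lc_tdeg {F ι : Type} [Field F] [Fintype ι] {n : ℕ} (A : ι → MvPolynomial (Fin n) F) (E : ℕ)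
    (hA : ∀ s, (A s).totalDegree ≤ E) (c : ι → F) : (lc A c).totalDegree ≤ E := by
  unfold lc
  apply totalDegree_finsetSum_le
  intro s _
  refine le_trans (totalDegree_mul _ _) ?_
  rw [totalDegree_C, zero_add]
  exact hA s

theorem lc_add {F ι : Type} [Field F] [Fintype ι] {n : ℕ} (A : ι → MvPolynomial (Fin n) F)
    (c d : ι → F) : lc A (c + d) = lc A c + lc A d := by
  unfold lc
  rw [← Finset.sum_add_distrib]
  apply Finset.sum_congr rfl
  intro s _
  rw [Pi.add_apply, C_add, add_mul]

theorem lc_smul {F ι : Type} [Field F] [Fintype ι] {n : ℕ} (A : ι → MvPolynomial (Fin n) F)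
    (r : F) (c : ι → F) : lc A (r • c) = r • lc A c := by
  unfold lc
  rw [Finset.smul_sum]
  apply Finset.sum_congr rfl
  intro s _
  rw [Pi.smul_apply, smul_eq_mul, C_mul, smul_eq_C_mul, mul_assoc]

theorem cp : S_CP := by
  intro F _ _ n k E ι _ A hA P hP hcard
  -- bases
  have hbas : ∀ p : P, ∃ B : Fin k → Fin n → F, ∀ y ∈ p.1.2, ∃ w : Fin k → F, ∀ i, y i = ∑ j, B j i * w j := by
    intro p
    let b := Module.finBasisOfFinrankEq F p.1.2 (hP p.1 p.2)
    refine ⟨fun j => (b j : Fin n → F), ?_⟩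
    intro y hy
    refine ⟨fun j => b.repr ⟨y, hy⟩ j, ?_⟩
    intro i
    have h := b.sum_repr ⟨y, hy⟩
    have h2 : (((∑ j, (b.repr ⟨y, hy⟩) j • b j : p.1.2) : Fin n → F)) i = y i := by
      rw [h]
    rw [← h2, AddSubmonoidClass.coe_finsetSum, Finset.sum_apply]
    apply Finset.sum_congr rfl
    intro j _
    rw [Submodule.coe_smul, Pi.smul_apply, smul_eq_mul, mul_comm]
  choose B hB using hbas
  let J : Type := P × Sym (Fin (k + 1)) E
  let ex : Sym (Fin (k + 1)) E → (Fin k →₀ ℕ) := fun s =>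
    Finsupp.equivFunOnFinite.symm (fun j => ((Sym.equivNatSumOfFintype (Fin (k + 1)) E) s).1 j.succ)
  let L : (ι → F) →ₗ[F] (J → F) :=
    { toFun := fun c q => coeff (ex q.2) (sb q.1.1.1 (B q.1) (lc A c))
      map_add' := by
        intro c d
        funext q
        show coeff (ex q.2) (sb q.1.1.1 (B q.1) (lc A (c + d))) = _
        rw [lc_add, map_add, coeff_add]
        rfl
      map_smul' := by
        intro r c
        funext q
        show coeff (ex q.2) (sb q.1.1.1 (B q.1) (lc A (r • c))) = _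
        rw [lc_smul, map_smul, coeff_smul]
        rfl }
  have hJ : Fintype.card J = P.card * (E + k).choose k := by
    show Fintype.card (P × Sym (Fin (k + 1)) E) = _
    rw [Fintype.card_prod, Fintype.card_coe, Sym.card_sym_eq_choose, Fintype.card_fin]
    congr 1
    have h1 : k + 1 + E - 1 = E + k := by omega
    rw [h1]
    exact (Nat.choose_symm_add (a := E) (b := k))
  have hker : LinearMap.ker L ≠ ⊥ := by
    apply LinearMap.ker_ne_bot_of_finrank_lt
    rw [Module.finrank_fintype_fun_eq_card, Module.finrank_fintype_fun_eq_card, hJ]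
    exact hcard
  obtain ⟨c, hc, hc0⟩ := (Submodule.ne_bot_iff _).mp hker
  refine ⟨c, hc0, ?_⟩
  intro p hp x hx
  have hz : sb p.1 (B ⟨p, hp⟩) (lc A c) = 0 := by
    ext β
    rw [coeff_zero]
    by_cases hdeg : ∑ j, β j ≤ E
    · have hQ : ∑ i, (Fin.cons (E - ∑ j, β j) (fun j => β j) : Fin (k + 1) → ℕ) i = E := by
        rw [Fin.sum_univ_succ]
        simp only [Fin.cons_zero, Fin.cons_succ]
        omega
      let s : Sym (Fin (k + 1)) E := (Sym.equivNatSumOfFintype (Fin (k + 1)) E).symm ⟨_, hQ⟩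
      have hs : ex s = β := by
        ext j
        show ((Sym.equivNatSumOfFintype (Fin (k + 1)) E) s).1 j.succ = β j
        rw [Equiv.apply_symm_apply]
        rfl
      have h1 : L c (⟨p, hp⟩, s) = 0 := by
        rw [LinearMap.mem_ker.mp hc]
        rfl
      rw [← hs]
      exact h1
    · apply coeff_eq_zero_of_totalDegree_lt
      have h2 := sb_tdeg p.1 (B ⟨p, hp⟩) (lc A c) E (lc_tdeg A E hA c)
      have h3 : ∑ i ∈ β.support, β i = ∑ j, β j := by
        apply Finset.sum_subset (Finset.subset_univ _)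
        intro i _ hi
        exact Finsupp.notMem_support_iff.mp hi
      rw [h3]
      omega
  obtain ⟨w, hw⟩ := hB ⟨p, hp⟩ (x - p.1) hx
  have h4 := sb_eval p.1 (B ⟨p, hp⟩) (lc A c) w
  rw [hz, map_zero] at h4
  have h5 : (fun i => p.1 i + ∑ j, B ⟨p, hp⟩ j i * w j) = x := by
    funext i
    rw [← hw i, Pi.sub_apply]
    ring
  rw [h5] at h4
  exact h4.symm

end Pool.Agent.W675.KP
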